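import Pool.Agent.helper17.LQ.SpecQ2

/-!
# MP_07c750 (quantum unique ergodicity), project LQ, row `lq:QL5`: the fourth moment for arbitrary `U`
-/

open MeasureTheory Set

set_option autoImplicit false

namespace Pool.Agent.LP

noncomputable section

/-- the volume of `U` in a dyadic interval -/
def QL5_v (U : Set ℝ) (n k : ℕ) : ℝ := volume.real (U ∩ Icc (xk n k) (xk n (k + 1)))

theorem QL5_len (n k : ℕ) : xk n (k + 1) - xk n k = 4 / 2 ^ n := by
  unfold xk
  push_cast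
  ring

theorem QL5_fin (U : Set ℝ) (hU : U ⊆ Icc (-2 : ℝ) 2) (V : Set ℝ) : volume (U ∩ V) ≠ ⊤ := by
  refine ne_top_of_le_ne_top ?_ (measure_mono (inter_subset_left.trans hU))
  rw [Real.volume_Icc]
  exact ENNReal.ofReal_ne_top

theorem QL5_v0 (U : Set ℝ) (n k : ℕ) : 0 ≤ QL5_v U n k := measureReal_nonneg

theorem QL5_vle (U : Set ℝ) (n k : ℕ) : QL5_v U n k ≤ 4 / 2 ^ n := by
  have h1 : QL5_v U n k ≤ volume.real (Icc (xk n k) (xk n (k + 1))) := by
    refine measureReal_mono inter_subset_right ?_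
    rw [Real.volume_Icc]
    exact ENNReal.ofReal_ne_top
  have h2 : volume.real (Icc (xk n k) (xk n (k + 1))) = 4 / 2 ^ n := by
    rw [measureReal_def, Real.volume_Icc, QL5_len, ENNReal.toReal_ofReal (by positivity)]
  rw [h2] at h1
  exact h1

theorem QL5_sum (U : Set ℝ) (hm : MeasurableSet U) (hU : U ⊆ Icc (-2 : ℝ) 2) (n : ℕ) :
    ∑ k ∈ Finset.range (2 ^ n), QL5_v U n k ≤ volume.real U := by
  have hstep : ∀ k : ℕ, QL5_v U n k = volume.real (U ∩ Ico (xk n k) (xk n (k + 1))) := by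
    intro k
    unfold QL5_v
    rw [measureReal_def, measureReal_def]
    congr 1
    apply measure_congr
    exact (ae_eq_refl U).inter Ico_ae_eq_Icc.symm
  have hdis : (↑(Finset.range (2 ^ n)) : Set ℕ).PairwiseDisjoint (fun k : ℕ => U ∩ Ico (xk n k) (xk n (k + 1))) := by
    intro k _ l _ hne
    rw [Function.onFun, Set.disjoint_left]
    intro v hv hv'
    apply hne
    have hp : (0 : ℝ) < 4 / 2 ^ n := by positivity
    have e1 : xk n k = -2 + (k : ℝ) * (4 / 2 ^ n) := by unfold xk; ring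
    have e2 : xk n l = -2 + (l : ℝ) * (4 / 2 ^ n) := by unfold xk; ring
    have e3 := QL5_len n k
    have e4 := QL5_len n l
    have h1 : (k : ℝ) < (l : ℝ) + 1 := by
      have := lt_of_le_of_lt hv.2.1 hv'.2.2
      by_contra hcon
      push Not at hcon
      nlinarith
    have h2 : (l : ℝ) < (k : ℝ) + 1 := by
      have := lt_of_le_of_lt hv'.2.1 hv.2.2
      by_contra hcon
      push Not at hcon
      nlinarith
    have h1' : k < l + 1 := by exact_mod_cast h1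
    have h2' : l < k + 1 := by exact_mod_cast h2
    omega
  have hsub : (⋃ k ∈ Finset.range (2 ^ n), U ∩ Ico (xk n k) (xk n (k + 1))) ⊆ U :=
    iUnion₂_subset fun k _ => inter_subset_left
  have hUfin : volume U ≠ ⊤ := by
    have := QL5_fin U hU Set.univ
    rwa [inter_univ] at this
  have h3 := measureReal_mono hsub hUfin
  rw [measureReal_def, measure_biUnion_finset hdis (fun k _ => hm.inter measurableSet_Ico),
    ENNReal.toReal_sum (fun k _ => QL5_fin U hU _)] at h3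
  rw [Finset.sum_congr rfl (fun k _ => hstep k)]
  exact h3

theorem QL5_pairs (P : Finset (ℕ × ℕ)) (R : Finset ℕ) (c : ℕ) (f : ℕ → ℝ) (θ : ℝ) (hf0 : ∀ k, 0 ≤ f k) (hfθ : ∀ k, f k ≤ θ)
    (hP : ∀ z ∈ P, z.1 ∈ R) (hc : ∀ k ∈ R, (P.filter (fun z => z.1 = k)).card ≤ c) :
    ∑ z ∈ P, f z.1 * f z.2 ≤ c * θ * ∑ k ∈ R, f k := by
  have hθ0 : 0 ≤ θ := (hf0 0).trans (hfθ 0)
  rw [← Finset.sum_fiberwise_of_maps_to (g := Prod.fst) (t := R) hP, Finset.mul_sum]
  refine Finset.sum_le_sum fun k hk => ?_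
  have h1 : ∑ z ∈ P.filter (fun z => z.1 = k), f z.1 * f z.2 ≤ ∑ z ∈ P.filter (fun z => z.1 = k), f k * θ := by
    refine Finset.sum_le_sum fun z hz => ?_
    rw [(Finset.mem_filter.1 hz).2]
    exact mul_le_mul_of_nonneg_left (hfθ _) (hf0 k)
  refine h1.trans ?_
  rw [Finset.sum_const, nsmul_eq_mul]
  have h2 : ((P.filter (fun z => z.1 = k)).card : ℝ) ≤ c := by exact_mod_cast hc k hk
  calc ((P.filter (fun z => z.1 = k)).card : ℝ) * (f k * θ) ≤ c * (f k * θ) :=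
        mul_le_mul_of_nonneg_right h2 (mul_nonneg (hf0 k) hθ0)
    _ = c * θ * f k := by ring

theorem QL5_PR (n : ℕ) (k : ℕ) : ((PR n).filter (fun z => z.1 = k)).card ≤ 4 := by
  have h1 : ((PR n).filter (fun z => z.1 = k)).card ≤ ({k + 2, k + 3, k - 2, k - 3} : Finset ℕ).card := by
    refine Finset.card_le_card_of_injOn Prod.snd ?_ ?_
    · intro z hz
      have hz' := Finset.mem_coe.1 hz
      rw [Finset.mem_filter, PR, Finset.mem_filter] at hz'
      obtain ⟨⟨-, h1, h2, h3⟩, h4⟩ := hz'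
      rw [Finset.mem_coe, Finset.mem_insert, Finset.mem_insert, Finset.mem_insert, Finset.mem_singleton]
      omega
    · intro z hz z' hz' h
      have a1 := (Finset.mem_filter.1 (Finset.mem_coe.1 hz)).2
      have a2 := (Finset.mem_filter.1 (Finset.mem_coe.1 hz')).2
      exact Prod.ext (a1.trans a2.symm) h
  exact h1.trans Finset.card_le_four

theorem QL5_PA (n : ℕ) (k : ℕ) : ((PA n).filter (fun z => z.1 = k)).card ≤ 3 := by
  have h1 : ((PA n).filter (fun z => z.1 = k)).card ≤ ({k, k + 1, k - 1} : Finset ℕ).card := by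
    refine Finset.card_le_card_of_injOn Prod.snd ?_ ?_
    · intro z hz
      have hz' := Finset.mem_coe.1 hz
      rw [Finset.mem_filter, PA, Finset.mem_filter] at hz'
      obtain ⟨⟨-, h1, h2⟩, h4⟩ := hz'
      rw [Finset.mem_coe, Finset.mem_insert, Finset.mem_insert, Finset.mem_singleton]
      omega
    · intro z hz z' hz' h
      have a1 := (Finset.mem_filter.1 (Finset.mem_coe.1 hz)).2
      have a2 := (Finset.mem_filter.1 (Finset.mem_coe.1 hz')).2
      exact Prod.ext (a1.trans a2.symm) h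
  exact h1.trans Finset.card_le_three

theorem QL5_cs (n : ℕ) (a : ℕ → ℝ) (b : ℝ) :
    (∑ j ∈ Finset.range n, a j + b) ^ 2 ≤ ((n : ℝ) + 1) * (∑ j ∈ Finset.range n, a j ^ 2 + b ^ 2) := by
  have h := sq_sum_le_card_mul_sum_sq (s := Finset.range (n + 1)) (f := fun j => if j < n then a j else b)
  rw [Finset.sum_range_succ, Finset.sum_range_succ, Finset.card_range] at h
  simp only [lt_irrefl, if_false] at h
  have e1 : ∑ j ∈ Finset.range n, (if j < n then a j else b) = ∑ j ∈ Finset.range n, a j :=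
    Finset.sum_congr rfl fun j hj => if_pos (Finset.mem_range.1 hj)
  have e2 : ∑ j ∈ Finset.range n, (if j < n then a j else b) ^ 2 = ∑ j ∈ Finset.range n, a j ^ 2 :=
    Finset.sum_congr rfl fun j hj => by rw [if_pos (Finset.mem_range.1 hj)]
  rw [e1, e2] at h
  push_cast at h
  exact h

theorem QL5_rpow (θ e : ℝ) (h0 : 0 < θ) (h2 : θ ≤ 2) (he0 : 0 ≤ e) (he1 : e ≤ 1) : θ ≤ 2 * θ ^ e := by
  rcases le_total θ 1 with h | h
  · have h1 : θ ^ (1 : ℝ) ≤ θ ^ e := Real.rpow_le_rpow_of_exponent_ge h0 h he1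
    rw [Real.rpow_one] at h1
    have := Real.rpow_pos_of_pos h0 e
    linarith
  · have h1 : 1 ≤ θ ^ e := Real.one_le_rpow h he0
    linarith

theorem QL5_proof (h1 : QGR_stmt) (h2 : QTL_stmt) (h3 : QKJ_stmt) (h4 : QBM_stmt) (h5 : QRS_stmt) : QL5_stmt := by
  intro C1 hC1
  obtain ⟨Cg, hCg, hG⟩ := h1 C1 hC1
  obtain ⟨Cr, hCr, hR⟩ := h5 C1 hC1
  refine ⟨48 * Cg * Cr + 6912 * C1 ^ 2, ?_, ?_⟩
  · nlinarith [mul_pos (show (0 : ℝ) < Cg by linarith) (show (0 : ℝ) < Cr by linarith)]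
  intro N T0 K α δ U S hT0 hTN hK hα1 hα2 hm hU hδ hSQ hS
  have hN1 : 1 ≤ N := hT0.trans hTN
  have hN0 : 0 < N := by linarith
  have hL0 : 0 ≤ Real.log N := Real.log_nonneg hN1
  set L : ℝ := 1 + Real.log N with hL
  have hL1 : 1 ≤ L := by linarith
  set M : ℝ := N / T0 with hM
  have hM1 : 1 ≤ M := by rw [hM, le_div_iff₀ (by linarith)]; linarith
  set v : ℝ := volume.real U with hv
  have hv0 : 0 ≤ v := measureReal_nonneg
  have hδ0 : 0 ≤ δ := hv0.trans hδ
  have hv4 : v ≤ 4 := by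
    have h6 : v ≤ volume.real (Icc (-2 : ℝ) 2) := by
      refine measureReal_mono hU ?_
      rw [Real.volume_Icc]
      exact ENNReal.ofReal_ne_top
    have h7 : volume.real (Icc (-2 : ℝ) 2) = 4 := by
      rw [measureReal_def, Real.volume_Icc, ENNReal.toReal_ofReal (by norm_num)]
      norm_num
    linarith
  obtain ⟨n, hn1, hn2⟩ := exists_nat_pow_near (show (1 : ℝ) ≤ 4 * N by linarith) (one_lt_two : (1 : ℝ) < 2)
  have hnL : (n : ℝ) ≤ 2 * L := by
    have h6 : (n : ℝ) * Real.log 2 ≤ 2 * Real.log 2 + Real.log N := by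
      have h7 := Real.log_le_log (by positivity) hn1
      rw [Real.log_pow, Real.log_mul (by norm_num) hN0.ne'] at h7
      have h8 : Real.log 4 = 2 * Real.log 2 := by
        rw [show (4 : ℝ) = 2 ^ 2 by norm_num, Real.log_pow]; push_cast; ring
      linarith
    have h9 : (1 : ℝ) / 2 < Real.log 2 := by
      have := Real.log_two_gt_d9; linarith
    have h10 : ((n : ℝ) - 2) * Real.log 2 ≤ Real.log N := by linarith
    by_cases h11 : (n : ℝ) ≤ 2
    · linarith
    · push Not at h11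
      nlinarith
  have hn0 : (0 : ℝ) ≤ n := Nat.cast_nonneg n
  have hθn : (4 : ℝ) / 2 ^ n ≤ 2 / N := by
    rw [div_le_div_iff₀ (by positivity) hN0]
    rw [pow_succ] at hn2
    linarith
  -- the pointwise decomposition
  set z : ℝ × ℝ → ℕ → ℂ := fun s j => ∑ w ∈ PR (j + 1), kj U s.1 s.2 (j + 1) w.1 * kj U s.1 s.2 (j + 1) w.2 with hz
  set nr : ℝ × ℝ → ℂ := fun s => ∑ w ∈ PA n, kj U s.1 s.2 n w.1 * kj U s.1 s.2 n w.2 with hnr
  have hdec : ∀ s ∈ S, ‖kk U s.1 s.2‖ ^ 4 ≤ ((n : ℝ) + 1) * (∑ j ∈ Finset.range n, ‖z s j‖ ^ 2 + ‖nr s‖ ^ 2) := by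
    intro s hs
    obtain ⟨k1, k2, -⟩ := h3 U s.1 s.2 hm hU (hS s hs).1
    have h6 := h2 (fun m k => kj U s.1 s.2 m k) k2 n
    have h7 : (kk U s.1 s.2) ^ 2 = ∑ j ∈ Finset.range n, z s j + nr s := by
      rw [← k1]; exact h6
    have h8 : ‖kk U s.1 s.2‖ ^ 2 ≤ ∑ j ∈ Finset.range n, ‖z s j‖ + ‖nr s‖ := by
      rw [← norm_pow, h7]
      exact (norm_add_le _ _).trans (add_le_add (norm_sum_le _ _) le_rfl)
    calc ‖kk U s.1 s.2‖ ^ 4 = (‖kk U s.1 s.2‖ ^ 2) ^ 2 := by ring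
      _ ≤ (∑ j ∈ Finset.range n, ‖z s j‖ + ‖nr s‖) ^ 2 := pow_le_pow_left₀ (by positivity) h8 2
      _ ≤ _ := QL5_cs n (fun j => ‖z s j‖) ‖nr s‖
  -- the far part
  have hfar : ∀ j ∈ Finset.range n, ∑ s ∈ S, ‖z s j‖ ^ 2 ≤ 8 * Cg * Cr * M ^ 2 * L * K * δ := by
    intro j _
    set θ : ℝ := 4 / 2 ^ (j + 1) with hθ
    have hθ0 : 0 < θ := by positivity
    have hθ2 : θ ≤ 2 := by
      rw [hθ, div_le_iff₀ (by positivity), pow_succ]
      have : (1 : ℝ) ≤ 2 ^ j := one_le_pow₀ (by norm_num)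
      linarith
    set e : ℝ := 2 * (α - 1) with he
    have he0 : 0 ≤ e := by rw [he]; linarith
    have he1 : e ≤ 1 := by rw [he]; linarith
    have hθe : 0 < θ ^ e := Real.rpow_pos_of_pos hθ0 e
    have hCM : 0 < Cg * M ^ 2 := by positivity
    set Q : ℝ := Cg * M ^ 2 * (Cr * L * K / θ ^ e) with hQ
    have hQ0 : 0 ≤ Q := by positivity
    have hrow : ∀ s ∈ S, ∑ s' ∈ S, gs s.1 s.2 s'.1 s'.2 (j + 1) ≤ Q := by
      intro s hs
      have h6 := hR N K α θ S (fun s' => gs s.1 s.2 s'.1 s'.2 (j + 1) / (Cg * M ^ 2)) hN1 (by linarith) hα1 hα2 hθ0 hSQ s hs (by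
        intro s' hs'
        obtain ⟨g1, g2⟩ := hG s.1 s'.1 s.2 s'.2 T0 N (j + 1) (hS s hs).1 (hS s' hs').1 hT0 hTN (hS s hs).2.1 (hS s hs).2.2
          (hS s' hs').2.1 (hS s' hs').2.2
        refine ⟨?_, ?_, ?_⟩
        · unfold dR
          refine max_le (by nlinarith) (max_le ?_ ?_)
          · have a1 : |s.1 - s'.1| ≤ 1 := by
              refine (abs_sub _ _).trans ?_
              have := (hS s hs).1
              have := (hS s' hs').1
              linarith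
            have a2 : N * |s.1 - s'.1| ≤ N * 1 := mul_le_mul_of_nonneg_left a1 hN0.le
            nlinarith
          · have a1 := (hS s hs).2
            have a2 := (hS s' hs').2
            exact abs_le.2 ⟨by linarith, by linarith⟩
        · rw [div_mul_eq_mul_div, div_le_one hCM]
          exact g1
        · rw [div_mul_eq_mul_div, div_le_one hCM]
          exact g2)
      rw [← Finset.sum_div, div_mul_eq_mul_div, div_le_iff₀ hCM] at h6
      rw [hQ]
      have h7 : Cg * M ^ 2 * (Cr * L * K / θ ^ e) = Cr * L * K * (Cg * M ^ 2) / θ ^ e := by ring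
      rw [h7, le_div_iff₀ hθe]
      exact h6
    have h8 := h4 U S (j + 1) Q hm hU (fun s hs => (hS s hs).1) hQ0 hrow
    have h9 : ∑ w ∈ PR (j + 1), volume.real (U ∩ Icc (xk (j + 1) w.1) (xk (j + 1) (w.1 + 1))) *
        volume.real (U ∩ Icc (xk (j + 1) w.2) (xk (j + 1) (w.2 + 1))) ≤ 4 * θ * δ := by
      have a1 := QL5_pairs (PR (j + 1)) (Finset.range (2 ^ (j + 1))) 4 (QL5_v U (j + 1)) θ (QL5_v0 U (j + 1)) (QL5_vle U (j + 1))
        (fun w hw => (Finset.mem_product.1 (Finset.mem_filter.1 hw).1).1) (fun k _ => QL5_PR (j + 1) k)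
      have a2 := QL5_sum U hm hU (j + 1)
      refine a1.trans ?_
      push_cast
      exact mul_le_mul_of_nonneg_left (a2.trans hδ) (by positivity)
    refine (h8.trans (mul_le_mul_of_nonneg_left h9 hQ0)).trans ?_
    have h10 := QL5_rpow θ e hθ0 hθ2 he0 he1
    have h11 : θ / θ ^ e ≤ 2 := by rw [div_le_iff₀ hθe]; exact h10
    calc Q * (4 * θ * δ) = 4 * Cg * Cr * M ^ 2 * L * K * δ * (θ / θ ^ e) := by rw [hQ]; ring
      _ ≤ 4 * Cg * Cr * M ^ 2 * L * K * δ * 2 := mul_le_mul_of_nonneg_left h11 (by positivity)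
      _ = 8 * Cg * Cr * M ^ 2 * L * K * δ := by ring
  -- the near part
  have hnear : ∀ s ∈ S, ‖nr s‖ ^ 2 ≤ 2304 * δ / N ^ 2 := by
    intro s hs
    obtain ⟨-, -, k3⟩ := h3 U s.1 s.2 hm hU (hS s hs).1
    have a1 : ‖nr s‖ ≤ 4 * ∑ w ∈ PA n, QL5_v U n w.1 * QL5_v U n w.2 := by
      rw [Finset.mul_sum]
      refine (norm_sum_le _ _).trans (Finset.sum_le_sum fun w _ => ?_)
      rw [norm_mul]
      have b1 : ‖kj U s.1 s.2 n w.1‖ ≤ 2 * QL5_v U n w.1 := k3 n w.1
      have b2 : ‖kj U s.1 s.2 n w.2‖ ≤ 2 * QL5_v U n w.2 := k3 n w.2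
      calc ‖kj U s.1 s.2 n w.1‖ * ‖kj U s.1 s.2 n w.2‖ ≤ (2 * QL5_v U n w.1) * (2 * QL5_v U n w.2) :=
            mul_le_mul b1 b2 (norm_nonneg _) (mul_nonneg (by norm_num) (QL5_v0 _ _ _))
        _ = 4 * (QL5_v U n w.1 * QL5_v U n w.2) := by ring
    have a2 := QL5_pairs (PA n) (Finset.range (2 ^ n)) 3 (QL5_v U n) (4 / 2 ^ n) (QL5_v0 U n) (QL5_vle U n)
      (fun w hw => (Finset.mem_product.1 (Finset.mem_filter.1 hw).1).1) (fun k _ => QL5_PA n k)
    have a3 := QL5_sum U hm hU n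
    have a4 : ‖nr s‖ ≤ 24 / N * v := by
      have b1 : ∑ w ∈ PA n, QL5_v U n w.1 * QL5_v U n w.2 ≤ 3 * (2 / N) * v := by
        refine a2.trans ?_
        push_cast
        exact mul_le_mul (mul_le_mul_of_nonneg_left hθn (by norm_num)) a3
          (Finset.sum_nonneg fun k _ => QL5_v0 U n k) (by positivity)
      calc ‖nr s‖ ≤ 4 * (3 * (2 / N) * v) := a1.trans (mul_le_mul_of_nonneg_left b1 (by norm_num))
        _ = 24 / N * v := by ring
    calc ‖nr s‖ ^ 2 ≤ (24 / N * v) ^ 2 := pow_le_pow_left₀ (norm_nonneg _) a4 2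
      _ = 576 / N ^ 2 * (v * v) := by ring
      _ ≤ 576 / N ^ 2 * (4 * δ) := by
          refine mul_le_mul_of_nonneg_left ?_ (by positivity)
          exact mul_le_mul hv4 hδ hv0 (by norm_num)
      _ = 2304 * δ / N ^ 2 := by ring
  have hcard : (S.card : ℝ) ≤ K * (C1 ^ 2 * N ^ 2) := by
    rcases S.eq_empty_or_nonempty with h6 | ⟨s0, hs0⟩
    · rw [h6]; simp; positivity
    · have h7 := hSQ s0 hs0 (C1 * N) (by nlinarith)
      have h8 : (S.filter fun s' : ℝ × ℝ => |s0.1 - s'.1| ≤ C1 * N / N ∧ |s0.2 - s'.2| ≤ C1 * N) = S := by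
        refine Finset.filter_true_of_mem fun s' hs' => ⟨?_, ?_⟩
        · rw [mul_div_assoc, div_self hN0.ne', mul_one]
          refine (abs_sub _ _).trans ?_
          have := (hS s0 hs0).1
          have := (hS s' hs').1
          linarith
        · have a1 := (hS s0 hs0).2
          have a2 := (hS s' hs').2
          exact abs_le.2 ⟨by linarith, by linarith⟩
      rw [h8] at h7
      refine h7.trans (mul_le_mul_of_nonneg_left ?_ (by linarith))
      have h9 : (C1 * N) ^ α ≤ (C1 * N) ^ (2 : ℝ) := Real.rpow_le_rpow_of_exponent_le (by nlinarith) (by linarith)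
      rw [Real.rpow_two, mul_pow] at h9
      exact h9
  have hA : ∑ s ∈ S, ‖kk U s.1 s.2‖ ^ 4 ≤ ((n : ℝ) + 1) * (∑ j ∈ Finset.range n, ∑ s ∈ S, ‖z s j‖ ^ 2 + ∑ s ∈ S, ‖nr s‖ ^ 2) := by
    refine (Finset.sum_le_sum hdec).trans (le_of_eq ?_)
    rw [← Finset.mul_sum, Finset.sum_add_distrib, Finset.sum_comm]
  have hB : ∑ j ∈ Finset.range n, ∑ s ∈ S, ‖z s j‖ ^ 2 ≤ 2 * L * (8 * Cg * Cr * M ^ 2 * L * K * δ) := by
    refine (Finset.sum_le_sum hfar).trans ?_
    rw [Finset.sum_const, Finset.card_range, nsmul_eq_mul]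
    exact mul_le_mul_of_nonneg_right hnL (by positivity)
  have hC : ∑ s ∈ S, ‖nr s‖ ^ 2 ≤ 2304 * C1 ^ 2 * K * δ := by
    refine (Finset.sum_le_sum hnear).trans ?_
    rw [Finset.sum_const, nsmul_eq_mul]
    calc (S.card : ℝ) * (2304 * δ / N ^ 2) ≤ (K * (C1 ^ 2 * N ^ 2)) * (2304 * δ / N ^ 2) :=
          mul_le_mul_of_nonneg_right hcard (by positivity)
      _ = 2304 * C1 ^ 2 * K * δ := by field_simp
  have hn3 : (n : ℝ) + 1 ≤ 3 * L := by linarith
  have hM0 : 0 < M := by linarith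
  have hCr0 : 0 < Cr := by linarith
  have hCg0 : 0 < Cg := by linarith
  have hK0 : 0 < K := by linarith
  calc ∑ s ∈ S, ‖kk U s.1 s.2‖ ^ 4 ≤ ((n : ℝ) + 1) * (∑ j ∈ Finset.range n, ∑ s ∈ S, ‖z s j‖ ^ 2 + ∑ s ∈ S, ‖nr s‖ ^ 2) := hA
    _ ≤ (3 * L) * (2 * L * (8 * Cg * Cr * M ^ 2 * L * K * δ) + 2304 * C1 ^ 2 * K * δ) := by
        refine mul_le_mul hn3 (add_le_add hB hC) ?_ (by positivity)
        positivity
    _ = 48 * Cg * Cr * (L ^ 3 * M ^ 2 * K * δ) + 6912 * C1 ^ 2 * (L * K * δ) := by ring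
    _ ≤ 48 * Cg * Cr * (L ^ 3 * M ^ 2 * K * δ) + 6912 * C1 ^ 2 * (L ^ 3 * M ^ 2 * K * δ) := by
        refine add_le_add le_rfl (mul_le_mul_of_nonneg_left ?_ (by positivity))
        have b1 : L ≤ L ^ 3 * M ^ 2 := by
          have c1 : L ≤ L ^ 3 := le_self_pow₀ hL1 (by norm_num)
          have c2 : (1 : ℝ) ≤ M ^ 2 := one_le_pow₀ hM1
          calc L ≤ L ^ 3 := c1
            _ = L ^ 3 * 1 := by ring
            _ ≤ L ^ 3 * M ^ 2 := mul_le_mul_of_nonneg_left c2 (by positivity)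
        exact mul_le_mul_of_nonneg_right (mul_le_mul_of_nonneg_right b1 hK0.le) hδ0
    _ = (48 * Cg * Cr + 6912 * C1 ^ 2) * L ^ 3 * M ^ 2 * K * δ := by ring

end

end Pool.Agent.LP
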